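import Pool.Agent.H295R2.LK.Defs
import Pool.Agent.H295R2.MK.R2

set_option autoImplicit false

namespace H295LK

open Finset Filter Topology MeasureTheory Complex
open Pool.Agent.H306R2
open H295MK (cl win winR mt CC VV EE N4 volE volN EElow N4up mt_zero)

noncomputable section

theorem twO (h : TwZ) : TwO := by
  intro B η δ h1 h2 h3 h4
  filter_upwards [h 0 B η δ h1 h2 h3 h4] with T hT τ hτ1 hτ2 a b ha haT hb hbY
  have := hT τ hτ1 hτ2 a b ha haT hb hbY
  rw [mt_zero a b ha hb] at this
  simp only [pow_zero, one_mul] at this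
  have h5 : (((if a = b then (1 : ℝ) else 0) : ℝ) : ℂ) = if a = b then 1 else 0 := by
    split_ifs <;> simp
  rw [h5] at this
  exact this

end

end H295LK
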