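import Pool.Agent.H295R2.LK.Defs
import Pool.Agent.H89R2.MK_R3

set_option autoImplicit false

namespace H295LK

open Finset Filter Topology MeasureTheory Complex
open Pool.Agent.H306R2 hiding fr
open H295MK (cl win winR mt CC VV EE N4 volE volN EElow N4up cc SP fr)
open Pool.Agent.H89R2.MKR3 hiding winN

noncomputable section

/-- R3 (adapted from the file of helper89) -/
theorem winN (h : TwZ) : WinN := by
  intro j η δ hj hη hη2 hδ hδ1
  filter_upwards [h j (3 * j + 4) η δ hη hη2 hδ hδ1, eventually_ge_atTop 1] with T hT hT1 τ hτ1 hτ2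
  have hT0 : 0 < T := by linarith
  set X : ℝ := Yt η T ^ (1 / 2 : ℝ) with hX
  have hY1 : 1 ≤ Yt η T := Real.one_le_rpow hT1 (by linarith)
  have hX1 : 1 ≤ X := Real.one_le_rpow hY1 (by norm_num)
  have hXX : X * X = Yt η T := by
    rw [hX, ← Real.rpow_add (by linarith)]
    norm_num
  have hYT : Yt η T ≤ T := by
    unfold Yt
    calc T ^ (1 - 2 * η) ≤ T ^ (1 : ℝ) := Real.rpow_le_rpow_of_exponent_le hT1 (by linarith)
      _ = T := Real.rpow_one T
  have hXT : X ≤ T := by nlinarith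
  have hX0 : 0 ≤ X := by linarith
  have hfl : ((⌊X⌋₊ : ℕ) : ℝ) ≤ X := Nat.floor_le hX0
  rw [integral_eq j η δ T τ X]
  set S : ℂ := ∑ b ∈ SP X, ∑ n ∈ Icc 1 ⌊X⌋₊, ((vn j n * cc j X b : ℝ) : ℂ) *
      win η δ T τ (fun t => riemannZeta (cl t) ^ j * fr b.2 (n * b.1) t) with hS
  have hE : ((EE j X : ℝ) : ℂ) = ∑ b ∈ SP X, ∑ n ∈ Icc 1 ⌊X⌋₊,
      ((vn j n * cc j X b : ℝ) : ℂ) * (mt j b.2 (n * b.1) : ℂ) := by
    rw [← EE_main j X]
    push_cast
    rfl
  have hdiff : ‖S - ((EE j X : ℝ) : ℂ)‖ ≤ 1 := by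
    rw [hE, hS, ← sum_sub_distrib]
    have hb1 : ∀ b ∈ SP X, ‖∑ n ∈ Icc 1 ⌊X⌋₊, ((vn j n * cc j X b : ℝ) : ℂ) *
        win η δ T τ (fun t => riemannZeta (cl t) ^ j * fr b.2 (n * b.1) t) -
        ∑ n ∈ Icc 1 ⌊X⌋₊, ((vn j n * cc j X b : ℝ) : ℂ) * (mt j b.2 (n * b.1) : ℂ)‖ ≤
        T * (T ^ j * (T * (T ^ j * T ^ j)) * (1 / T ^ (3 * j + 4))) := by
      intro b hb
      obtain ⟨h1, h2, h3, h4, h5⟩ := mem_SP hb
      have hb1X : (b.1 : ℝ) ≤ X := le_trans (by exact_mod_cast h2) hfl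
      have hb2X : (b.2 : ℝ) ≤ X := le_trans (by exact_mod_cast h4) hfl
      rw [← sum_sub_distrib]
      refine (norm_sum_le _ _).trans ?_
      refine (sum_le_card_nsmul _ _ (T ^ j * (T * (T ^ j * T ^ j)) * (1 / T ^ (3 * j + 4)))
        fun n hn => ?_).trans ?_
      · rw [mem_Icc] at hn
        have hnX : (n : ℝ) ≤ X := le_trans (by exact_mod_cast hn.2) hfl
        rw [← mul_sub, norm_mul, Complex.norm_real, Real.norm_eq_abs, abs_mul]
        refine mul_le_mul (mul_le_mul (vn_abs_le j n hT1 hn.1 (hnX.trans hXT))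
          (cc_abs_le j X hT1 (hXX.le.trans hYT) hX1 b hb) (abs_nonneg _) (by positivity)) ?_
          (norm_nonneg _) (by positivity)
        refine hT τ hτ1 hτ2 b.2 (n * b.1) h3 (hb2X.trans hXT)
          (Nat.one_le_iff_ne_zero.2 (Nat.mul_ne_zero (by omega) (by omega))) ?_
        rw [← hXX]
        push_cast
        exact mul_le_mul hnX hb1X (by positivity) hX0
      · rw [nsmul_eq_mul, Nat.card_Icc, Nat.add_sub_cancel]
        exact mul_le_mul_of_nonneg_right (hfl.trans hXT) (by positivity)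
    refine (norm_sum_le _ _).trans ((sum_le_card_nsmul _ _ _ hb1).trans ?_)
    rw [nsmul_eq_mul]
    have hcard : ((SP X).card : ℝ) ≤ T * T := by
      have h1 : (SP X).card ≤ ⌊X⌋₊ * ⌊X⌋₊ := by
        unfold SP
        refine (card_filter_le _ _).trans ?_
        rw [card_product, Nat.card_Icc, Nat.add_sub_cancel]
      calc ((SP X).card : ℝ) ≤ ((⌊X⌋₊ * ⌊X⌋₊ : ℕ) : ℝ) := by exact_mod_cast h1
        _ = (⌊X⌋₊ : ℝ) * ⌊X⌋₊ := by push_cast; rfl
        _ ≤ T * T := mul_le_mul (hfl.trans hXT) (hfl.trans hXT) (by positivity) hT0.le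
    calc _ ≤ T * T * (T * (T ^ j * (T * (T ^ j * T ^ j)) * (1 / T ^ (3 * j + 4)))) :=
          mul_le_mul_of_nonneg_right hcard (by positivity)
      _ = T ^ (3 * j + 4) * (1 / T ^ (3 * j + 4)) := by ring
      _ = 1 := mul_one_div_cancel (by positivity)
      _ ≤ 1 := le_rfl
  have h1 : EE j X ≤ ‖((EE j X : ℝ) : ℂ)‖ := by
    rw [Complex.norm_real]
    exact le_abs_self _
  have h2 : ‖((EE j X : ℝ) : ℂ)‖ ≤ ‖S‖ + ‖S - ((EE j X : ℝ) : ℂ)‖ := by
    have := norm_sub_le S (S - ((EE j X : ℝ) : ℂ))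
    rwa [sub_sub_cancel] at this
  linarith

end

end H295LK
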